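import Mathlib

set_option autoImplicit false

namespace Pool.Agent.Results.MP_522a36_co.Counter

/-- `𝒮` shatters the finite set `Y`. -/
def Shatters {X : Type} (𝒮 : Set (Set X)) (Y : Finset X) : Prop :=
  ∀ Z : Set X, Z ⊆ ↑Y → ∃ S ∈ 𝒮, S ∩ ↑Y = Z

/-- The `k`-fold union family. -/
def unionFam {X : Type} (𝒮 : Set (Set X)) (k : ℕ) : Set (Set X) :=
  {U | ∃ f : Fin k → Set X, (∀ i, f i ∈ 𝒮) ∧ U = ⋃ i, f i}

/-- `Y` is a set of the largest size `d_k` shattered by the `k`-fold union family. -/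
def MaxSh {X : Type} (𝒮 : Set (Set X)) (k : ℕ) (Y : Finset X) : Prop :=
  Shatters (unionFam 𝒮 k) Y ∧ ∀ Y', Shatters (unionFam 𝒮 k) Y' → Y'.card ≤ Y.card

/-- The trace family of `𝒮` on `Y`. -/
def trace {X : Type} (𝒮 : Set (Set X)) (Y : Finset X) : Set (Set Y) :=
  {T | ∃ S ∈ 𝒮, T = Subtype.val ⁻¹' S}

/-- Shatter-isomorphism. -/
def ShIso {X : Type} (𝒮 : Set (Set X)) (Y Y' : Finset X) : Prop :=
  ∃ f : Y ≃ Y', (fun T => f '' T) '' trace 𝒮 Y = trace 𝒮 Y'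

/-- `s_k`: the number of shatter-isomorphism classes of sets of size `d_k` shattered by the
`k`-fold union family. -/
noncomputable def sSeq {X : Type} (𝒮 : Set (Set X)) (k : ℕ) : ℕ∞ :=
  Set.encard {C : Set (Finset X) | ∃ Y, MaxSh 𝒮 k Y ∧ C = {Y' | MaxSh 𝒮 k Y' ∧ ShIso 𝒮 Y Y'}}

def S0 : Finset (Finset ℕ) := {∅, {0}, {1}, {2}, {3}, {0, 1}, {0, 2}}

def SS : Set (Set ℕ) := (fun a : Finset ℕ => (a : Set ℕ)) '' ↑S0

theorem sh2 (Y : Finset ℕ) : Shatters (unionFam SS 2) Y ↔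
    ∀ Z ∈ Y.powerset, ∃ a ∈ S0, ∃ b ∈ S0, (a ∪ b) ∩ Y = Z := by
  constructor
  · intro h Z hZ
    obtain ⟨_, ⟨f, hf, rfl⟩, e⟩ := h Z (by simpa using hZ)
    obtain ⟨a, ha, ea⟩ := hf 0
    obtain ⟨b, hb, eb⟩ := hf 1
    refine ⟨a, ha, b, hb, Finset.coe_injective ?_⟩
    rw [← e]
    ext x
    simp [ea, eb, Fin.exists_fin_two]
  · intro h Z hZ
    obtain ⟨Z, rfl⟩ := (Y.finite_toSet.subset hZ).exists_finset_coe
    obtain ⟨a, ha, b, hb, e⟩ := h Z (by simpa using hZ)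
    refine ⟨_, ⟨![a, b], fun i => ?_, rfl⟩, ?_⟩
    · fin_cases i
      exacts [⟨a, ha, rfl⟩, ⟨b, hb, rfl⟩]
    · rw [← e]
      ext x
      simp [Fin.exists_fin_two]

theorem sh3 (Y : Finset ℕ) : Shatters (unionFam SS 3) Y ↔
    ∀ Z ∈ Y.powerset, ∃ a ∈ S0, ∃ b ∈ S0, ∃ c ∈ S0, (a ∪ b ∪ c) ∩ Y = Z := by
  constructor
  · intro h Z hZ
    obtain ⟨_, ⟨f, hf, rfl⟩, e⟩ := h Z (by simpa using hZ)
    obtain ⟨a, ha, ea⟩ := hf 0
    obtain ⟨b, hb, eb⟩ := hf 1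
    obtain ⟨c, hc, ec⟩ := hf 2
    refine ⟨a, ha, b, hb, c, hc, Finset.coe_injective ?_⟩
    rw [← e]
    ext x
    simp [ea, eb, ec, Fin.exists_fin_succ]
  · intro h Z hZ
    obtain ⟨Z, rfl⟩ := (Y.finite_toSet.subset hZ).exists_finset_coe
    obtain ⟨a, ha, b, hb, c, hc, e⟩ := h Z (by simpa using hZ)
    refine ⟨_, ⟨![a, b, c], fun i => ?_, rfl⟩, ?_⟩
    · fin_cases i
      exacts [⟨a, ha, rfl⟩, ⟨b, hb, rfl⟩, ⟨c, hc, rfl⟩]
    · rw [← e]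
      ext x
      simp [Fin.exists_fin_succ]

theorem sub4 {k : ℕ} {Y : Finset ℕ} (h : Shatters (unionFam SS k) Y) :
    Y ⊆ Finset.range 4 := by
  obtain ⟨_, ⟨f, hf, rfl⟩, e⟩ := h Y subset_rfl
  intro x hx
  have : x ∈ (⋃ i, f i) ∩ ↑Y := by rw [e]; exact hx
  obtain ⟨i, hi⟩ := Set.mem_iUnion.1 this.1
  obtain ⟨a, ha, ea⟩ := hf i
  rw [← ea] at hi
  exact (by decide : ∀ a ∈ S0, a ⊆ Finset.range 4) a ha hi

theorem trace_card (Y : Finset ℕ) :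
    (trace SS Y).ncard = (S0.image (· ∩ Y)).card := by
  rw [← Set.ncard_coe_finset]
  symm
  refine Set.ncard_congr (fun T _ => Subtype.val ⁻¹' (T : Set ℕ)) ?_ ?_ ?_
  · intro T hT
    obtain ⟨a, ha, rfl⟩ := Finset.mem_image.1 hT
    exact ⟨_, ⟨a, ha, rfl⟩, by ext x; simp⟩
  · intro T T' hT hT' e
    obtain ⟨a, ha, rfl⟩ := Finset.mem_image.1 hT
    obtain ⟨b, hb, rfl⟩ := Finset.mem_image.1 hT'
    ext x
    by_cases hx : x ∈ Y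
    · exact Set.ext_iff.1 e ⟨x, hx⟩
    · simp [hx]
  · rintro _ ⟨_, ⟨a, ha, rfl⟩, rfl⟩
    exact ⟨a ∩ Y, Finset.mem_image.2 ⟨a, ha, rfl⟩, by ext x; simp⟩

/-- A family of finite VC-dimension on the infinite set `ℕ` with `s_3 = 1 < s_2`. -/
theorem result : ∃ 𝒮 : Set (Set ℕ), (∃ d, ∀ Y, Shatters 𝒮 Y → Y.card ≤ d) ∧
    sSeq 𝒮 3 = 1 ∧ sSeq 𝒮 3 < sSeq 𝒮 2 := by
  have refl : ∀ (𝒮 : Set (Set ℕ)) Y, ShIso 𝒮 Y Y := fun 𝒮 Y => ⟨Equiv.refl _, by simp⟩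
  have h3 : sSeq SS 3 = 1 := by
    have m : MaxSh SS 3 (Finset.range 4) :=
      ⟨(sh3 _).2 (by decide +kernel), fun Y hY => Finset.card_le_card (sub4 hY)⟩
    rw [sSeq, Set.encard_eq_one]
    refine ⟨_, Set.eq_singleton_iff_unique_mem.2 ⟨⟨_, m, rfl⟩, ?_⟩⟩
    rintro _ ⟨Y, hY, rfl⟩
    rw [Finset.eq_of_subset_of_card_le (sub4 hY.1) (hY.2 _ m.1)]
  refine ⟨SS, ⟨4, fun Y hY => ?_⟩, h3, ?_⟩
  · obtain ⟨_, ⟨a, ha, rfl⟩, e⟩ := hY Y subset_rfl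
    have : Y ⊆ a := fun x hx => by
      have : x ∈ (a : Set ℕ) ∩ ↑Y := by rw [e]; exact hx
      exact this.1
    exact (Finset.card_le_card this).trans ((by decide : ∀ a ∈ S0, a.card ≤ 4) a ha)
  · have b : ∀ Y, Shatters (unionFam SS 2) Y → Y.card ≤ 3 := by
      intro Y hY
      by_contra hc
      have := Finset.eq_of_subset_of_card_le (sub4 hY) (by simp; omega)
      rw [this, sh2] at hY
      revert hY
      decide +kernel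
    have m1 : MaxSh SS 2 {0, 1, 2} :=
      ⟨(sh2 _).2 (by decide +kernel), b⟩
    have m2 : MaxSh SS 2 {0, 1, 3} :=
      ⟨(sh2 _).2 (by decide +kernel), b⟩
    rw [h3, sSeq, Set.one_lt_encard_iff]
    refine ⟨_, _, ⟨_, m1, rfl⟩, ⟨_, m2, rfl⟩, fun e => ?_⟩
    obtain ⟨-, f, hf⟩ := (Set.ext_iff.1 e {0, 1, 3}).2 ⟨m2, refl _ _⟩
    have := congrArg Set.ncard hf
    rw [Set.ncard_image_of_injective _ (Set.image_injective.2 f.injective), trace_card,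
      trace_card] at this
    revert this
    decide +kernel

end Pool.Agent.Results.MP_522a36_co.Counter
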